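import Mathlib

/-!
# Symbolic powers and powers of the maximal ideal: monomial curves

For the monomial curves `(t ^ n, t ^ (n + 1), t ^ (n ^ 2 - n - 1))` and their sums with ideals of
coordinates.
-/

set_option autoImplicit false

namespace Pool.Agent.Y145.SP

open IsLocalRing MvPolynomial

section Defs

variable {R : Type} [CommRing R]

/-- The `m`-th symbolic power of `I` : the intersection, over all minimal primes `P` of `I`, of the
contractions to `R` of `I ^ m` extended to the localization of `R` at `P`. -/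
noncomputable def symbolicPower (I : Ideal R) (m : ℕ) : Ideal R :=
  ⨅ P : PrimeSpectrum R, ⨅ _ : P.asIdeal ∈ I.minimalPrimes,
    ((I ^ m).map (algebraMap R (Localization.AtPrime P.asIdeal))).comap
      (algebraMap R (Localization.AtPrime P.asIdeal))

/-- The big height of `I` : the largest height of a minimal prime of `I`. -/
noncomputable def bigHeight (I : Ideal R) : ℕ∞ := ⨆ P ∈ I.minimalPrimes, P.height

end Defs

section General

variable {R : Type} [CommRing R] {I : Ideal R}

theorem bigHeight_of_isPrime (hI : I.IsPrime) : bigHeight I = I.height := by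
  unfold bigHeight
  rw [Ideal.minimalPrimes_eq_subsingleton_self]
  simp

/-- An element multiplied into `I ^ m` by an element outside of the prime ideal `I` lies in the
symbolic power. -/
theorem mem_symbolicPower (hI : I.IsPrime) {m : ℕ} {s f : R} (hs : s ∉ I) (h : s * f ∈ I ^ m) :
    f ∈ symbolicPower I m := by
  unfold symbolicPower
  simp only [Submodule.mem_iInf]
  intro P hP
  rw [Ideal.minimalPrimes_eq_subsingleton_self] at hP
  have hP' : P.asIdeal = I := hP
  rw [Ideal.mem_comap]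
  have h1 := Ideal.mem_map_of_mem (algebraMap R (Localization.AtPrime P.asIdeal)) h
  rw [map_mul] at h1
  have hu : IsUnit (algebraMap R (Localization.AtPrime P.asIdeal) s) :=
    IsLocalization.map_units (Localization.AtPrime P.asIdeal)
      (⟨s, fun hs' => hs (by rw [← hP']; exact hs')⟩ : P.asIdeal.primeCompl)
  exact (Ideal.unit_mul_mem_iff_mem _ hu).1 h1

/-- determinants with entries in an ideal -/
theorem det_mem_pow {N : ℕ} (S : Matrix (Fin N) (Fin N) R) (h : ∀ i j, S i j ∈ I) :
    S.det ∈ I ^ N := by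
  rw [Matrix.det_apply]
  refine sum_mem fun σ _ => ?_
  have h1 : ∏ i, S (σ i) i ∈ I ^ N := by
    have h2 := Ideal.prod_mem_prod (s := (Finset.univ : Finset (Fin N))) (I := fun _ => I)
      (x := fun i => S (σ i) i) (fun i _ => h _ _)
    rwa [Finset.prod_const, Finset.card_univ, Fintype.card_fin] at h2
  rcases Int.units_eq_one_or (Equiv.Perm.sign σ) with h2 | h2
  · rw [h2, one_smul]; exact h1
  · rw [h2, Units.neg_smul, one_smul]; exact neg_mem h1

/-- condensation: matrices whose minors of order two lie in the ideal -/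
theorem chio {N : ℕ} (M : Matrix (Fin (N + 1)) (Fin (N + 1)) R)
    (h : ∀ i j : Fin N, M 0 0 * M i.succ j.succ - M i.succ 0 * M 0 j.succ ∈ I) :
    M 0 0 ^ N * M.det ∈ I ^ N := by
  set E : Matrix (Fin (N + 1)) (Fin (N + 1)) R := Matrix.of fun i j =>
    Fin.cases (if j = 0 then (1 : R) else 0)
      (fun i' => if j = i'.succ then M 0 0 else if j = 0 then -M i'.succ 0 else 0) i with hE
  have hE0 : ∀ j, E 0 j = if j = 0 then 1 else 0 := fun j => rfl
  have hEs : ∀ (i : Fin N) j, E i.succ j = if j = i.succ then M 0 0 else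
      if j = 0 then -M i.succ 0 else 0 := fun i j => rfl
  have hdet : E.det = M 0 0 ^ N := by
    rw [Matrix.det_of_isLowerTriangular]
    · rw [Fin.prod_univ_succ, hE0]
      simp only [hEs, if_true, one_mul, Finset.prod_const, Finset.card_univ, Fintype.card_fin]
    · intro i j hij
      have hij' : i < j := hij
      refine Fin.cases ?_ (fun i' hij' => ?_) i hij'
      · intro h0
        rw [hE0, if_neg (ne_of_gt h0)]
      · rw [hEs, if_neg (ne_of_gt hij'), if_neg]
        rintro rfl
        exact absurd hij' (Fin.not_lt_zero _)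
  have hprod : (E * M).det = M 0 0 *
      ((Matrix.of fun i j : Fin N => M 0 0 * M i.succ j.succ - M i.succ 0 * M 0 j.succ).det) := by
    have h0 : ∀ j, (E * M) 0 j = M 0 j := by
      intro j
      rw [Matrix.mul_apply, Finset.sum_eq_single 0]
      · rw [hE0]; simp
      · intro l _ hl
        rw [hE0, if_neg hl, zero_mul]
      · intro h; exact absurd (Finset.mem_univ _) h
    have hs : ∀ (i : Fin N) j, (E * M) i.succ j = M 0 0 * M i.succ j - M i.succ 0 * M 0 j := by
      intro i j
      rw [Matrix.mul_apply, Finset.sum_eq_add (0 : Fin (N + 1)) i.succ (Fin.succ_ne_zero i).symm]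
      · rw [hEs, hEs, if_neg (Fin.succ_ne_zero i).symm, if_pos rfl, if_pos rfl]
        ring
      · intro l _ hl
        rw [hEs, if_neg hl.2, if_neg hl.1, zero_mul]
      · intro h; exact absurd (Finset.mem_univ _) h
      · intro h; exact absurd (Finset.mem_univ _) h
    rw [Matrix.det_succ_column_zero, Finset.sum_eq_single 0]
    · rw [h0]
      simp only [Fin.val_zero, pow_zero, one_mul]
      congr 2
      ext i j
      simp only [Matrix.submatrix_apply, Fin.succAbove_zero, Matrix.of_apply, hs]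
    · intro l _ hl
      obtain ⟨i, rfl⟩ := Fin.exists_succ_eq.2 hl
      rw [hs, mul_comm (M 0 0), sub_self, mul_zero, zero_mul]
    · intro h; exact absurd (Finset.mem_univ _) h
  rw [← hdet, ← Matrix.det_mul, hprod]
  exact Ideal.mul_mem_left _ _ (det_mem_pow _ fun i j => h i j)

end General

section Ring

variable (k : Type) [Field k] (a b : ℕ)

/-- The variables: `x, y, z`, then `w_j`, then `u_j`. -/
abbrev ι : Type := Fin 3 ⊕ (Fin a ⊕ Fin b)

/-- The polynomial ring. -/
abbrev A : Type := MvPolynomial (ι a b) k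

/-- The ideal of the origin. -/
noncomputable def m₀ : Ideal (A k a b) := RingHom.ker (constantCoeff : A k a b →+* k)

instance : (m₀ k a b).IsPrime := RingHom.ker_isPrime _

/-- The local ring of affine space at the origin. -/
abbrev Loc : Type := Localization.AtPrime (m₀ k a b)

/-- the target of the parametrization -/
abbrev T : Type := MvPolynomial (Option (Fin b)) k

/-- the target of the parametrization of the surface -/
abbrev T2 : Type := MvPolynomial (Fin 2 ⊕ Fin b) k

/-- coordinates of the monomial curve `(t ^ n, t ^ (n + 1), t ^ (n ^ 2 - n - 1))`, `n = N + 1` -/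
def cv (N : ℕ) : Fin 3 → ℕ := ![N + 1, N + 2, N ^ 2 + N - 1]

/-- the parametrization, with the first `j` of the `u` put to zero -/
noncomputable def φ (N j : ℕ) : A k a b →ₐ[k] T k b :=
  aeval (Sum.elim (fun i => X none ^ cv N i)
    (Sum.elim (fun _ => 0) (fun i => if (i : ℕ) < j then 0 else X (some i))))

/-- the parametrization of a surface -/
noncomputable def ψ (N : ℕ) : A k a b →ₐ[k] T2 k b :=
  aeval (Sum.elim ![X (Sum.inl 0) ^ (N + 1), X (Sum.inl 0) ^ (N + 2), X (Sum.inl 1)]
    (Sum.elim (fun _ => 0) (fun i => X (Sum.inr i))))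

/-- the first `j` of the `w` put to zero -/
noncomputable def κ (j : ℕ) : A k a b →ₐ[k] A k a b :=
  aeval (Sum.elim (fun i => X (Sum.inl i))
    (Sum.elim (fun i => if (i : ℕ) < j then 0 else X (Sum.inr (Sum.inl i)))
      (fun i => X (Sum.inr (Sum.inr i)))))

/-- The ideal of the curve, in the subspace of the `u`. -/
noncomputable def P₀ (N : ℕ) : Ideal (A k a b) := RingHom.ker (φ k a b N 0)

instance (N : ℕ) : (P₀ k a b N).IsPrime := RingHom.ker_isPrime _

instance (N j : ℕ) : (RingHom.ker (φ k a b N j)).IsPrime := RingHom.ker_isPrime _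

instance (j : ℕ) : (RingHom.ker (κ k a b j)).IsPrime := RingHom.ker_isPrime _

instance (N : ℕ) : (RingHom.ker (ψ k a b N)).IsPrime := RingHom.ker_isPrime _

variable {k a b}

theorem mem_m₀ {f : A k a b} : f ∈ m₀ k a b ↔ constantCoeff f = 0 := RingHom.mem_ker

theorem κ_lt {j : ℕ} (hj : j < a) : RingHom.ker (κ k a b j) < RingHom.ker (κ k a b (j + 1)) := by
  have h : (κ k a b (j + 1)).comp (κ k a b j) = κ k a b (j + 1) := by
    apply MvPolynomial.algHom_ext
    rintro (i | i | i)
    · simp [κ]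
    · simp only [κ, AlgHom.comp_apply, aeval_X, Sum.elim_inr, Sum.elim_inl]
      by_cases hi : (i : ℕ) < j
      · rw [if_pos hi, if_pos (by omega), map_zero]
      · rw [if_neg hi, aeval_X, Sum.elim_inr, Sum.elim_inl]
    · simp [κ]
  refine lt_of_le_of_ne ?_ ?_
  · intro f hf
    rw [RingHom.mem_ker] at hf ⊢
    rw [← h, AlgHom.comp_apply, hf, map_zero]
  · intro he
    have h1 : (X (Sum.inr (Sum.inl ⟨j, hj⟩)) : A k a b) ∈ RingHom.ker (κ k a b (j + 1)) := by
      rw [RingHom.mem_ker]
      simp [κ]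
    rw [← he, RingHom.mem_ker] at h1
    simp [κ] at h1

theorem κ_height (j : ℕ) (hj : j ≤ a) : (j : ℕ∞) ≤ (RingHom.ker (κ k a b j)).height := by
  induction j with
  | zero => simp
  | succ j ih =>
    have h1 := Ideal.height_add_one_le_of_lt_of_isPrime (κ_lt (k := k) (b := b) (by omega : j < a))
    refine le_trans ?_ h1
    push_cast
    exact add_le_add (ih (by omega)) le_rfl

theorem κ_lt_ψ (N : ℕ) : RingHom.ker (κ k a b a) < RingHom.ker (ψ k a b N) := by
  have h : (ψ k a b N).comp (κ k a b a) = ψ k a b N := by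
    apply MvPolynomial.algHom_ext
    rintro (i | i | i)
    · simp [κ]
    · simp [κ, ψ]
    · simp [κ]
  refine lt_of_le_of_ne ?_ ?_
  · intro f hf
    rw [RingHom.mem_ker] at hf ⊢
    rw [← h, AlgHom.comp_apply, hf, map_zero]
  · intro he
    have h1 : (X (Sum.inl 0) ^ (N + 2) - X (Sum.inl 1) ^ (N + 1) : A k a b) ∈
        RingHom.ker (ψ k a b N) := by
      rw [RingHom.mem_ker]
      simp [ψ]
      ring
    rw [← he, RingHom.mem_ker] at h1
    simp only [κ, map_sub, map_pow, aeval_X, Sum.elim_inl] at h1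
    have h2 := congrArg (aeval (Sum.elim ![(1 : k), 0, 0] (fun _ => 0))) h1
    simp at h2

theorem ψ_lt_P {N : ℕ} (hN : 2 ≤ N) : RingHom.ker (ψ k a b N) < P₀ k a b N := by
  have hc : N ^ 2 + N - 1 ≠ 0 := by
    have : 1 < N ^ 2 + N := by nlinarith
    omega
  have h : (aeval (Sum.elim ![X none, X none ^ (N ^ 2 + N - 1)] (fun i => X (some i))) :
      T2 k b →ₐ[k] T k b).comp (ψ k a b N) = φ k a b N 0 := by
    apply MvPolynomial.algHom_ext
    rintro (i | i | i)
    · fin_cases i <;> simp [φ, ψ, cv]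
    · simp [φ, ψ]
    · simp [φ, ψ]
  refine lt_of_le_of_ne ?_ ?_
  · intro f hf
    rw [RingHom.mem_ker] at hf
    show f ∈ RingHom.ker _
    rw [RingHom.mem_ker, ← h, AlgHom.comp_apply, hf, map_zero]
  · intro he
    have h1 : (X (Sum.inl 0) ^ (N ^ 2 + N - 1) - X (Sum.inl 2) ^ (N + 1) : A k a b) ∈
        P₀ k a b N := by
      show _ ∈ RingHom.ker _
      rw [RingHom.mem_ker]
      simp [φ, cv]
      ring
    rw [← he, RingHom.mem_ker] at h1
    simp only [ψ, map_sub, map_pow, aeval_X, Sum.elim_inl] at h1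
    have h2 := congrArg (aeval (Sum.elim ![(0 : k), 1] (fun _ => 0))) h1
    simp [hc] at h2

theorem φ_lt {N j : ℕ} (hj : j < b) :
    RingHom.ker (φ k a b N j) < RingHom.ker (φ k a b N (j + 1)) := by
  have h : (aeval (fun i : Option (Fin b) => i.elim (X none)
      (fun i => if (i : ℕ) < j + 1 then 0 else X (some i))) : T k b →ₐ[k] T k b).comp
      (φ k a b N j) = φ k a b N (j + 1) := by
    apply MvPolynomial.algHom_ext
    rintro (i | i | i)
    · simp [φ]
    · simp [φ]
    · simp only [φ, AlgHom.comp_apply, aeval_X, Sum.elim_inr]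
      by_cases hi : (i : ℕ) < j
      · rw [if_pos hi, if_pos (by omega), map_zero]
      · rw [if_neg hi, aeval_X]
        rfl
  refine lt_of_le_of_ne ?_ ?_
  · intro f hf
    rw [RingHom.mem_ker] at hf ⊢
    rw [← h, AlgHom.comp_apply, hf, map_zero]
  · intro he
    have h1 : (X (Sum.inr (Sum.inr ⟨j, hj⟩)) : A k a b) ∈ RingHom.ker (φ k a b N (j + 1)) := by
      rw [RingHom.mem_ker]
      simp [φ]
    rw [← he, RingHom.mem_ker] at h1
    simp [φ] at h1

theorem φ_height (N j : ℕ) (hj : j ≤ b) :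
    (P₀ k a b N).height + j ≤ (RingHom.ker (φ k a b N j)).height := by
  induction j with
  | zero => simp [P₀]
  | succ j ih =>
    have h1 := Ideal.height_add_one_le_of_lt_of_isPrime
      (φ_lt (k := k) (a := a) (N := N) (by omega : j < b))
    refine le_trans ?_ h1
    push_cast
    rw [← add_assoc]
    exact add_le_add (ih (by omega)) le_rfl

theorem φ_lt_m {N : ℕ} (hN : 2 ≤ N) : RingHom.ker (φ k a b N b) < m₀ k a b := by
  have hc : ∀ i, cv N i ≠ 0 := by
    intro i
    have h2 : N ^ 2 + N - 1 ≠ 0 := by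
      have : 1 < N ^ 2 + N := by nlinarith
      omega
    fin_cases i
    · simp [cv]
    · simp [cv]
    · exact h2
  have h : (constantCoeff : T k b →+* k).comp ((φ k a b N b : A k a b →ₐ[k] T k b) :
      A k a b →+* T k b) = constantCoeff := by
    apply MvPolynomial.ringHom_ext
    · intro r
      simp [φ]
    · rintro (i | i | i)
      · simp [φ, hc i]
      · simp [φ]
      · simp [φ]
  refine lt_of_le_of_ne ?_ ?_
  · intro f hf
    rw [RingHom.mem_ker] at hf
    rw [mem_m₀, ← h, RingHom.comp_apply]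
    have : ((φ k a b N b : A k a b →ₐ[k] T k b) : A k a b →+* T k b) f = 0 := hf
    rw [this, map_zero]
  · intro he
    have h5 : (X (Sum.inl 0) : A k a b) ∈ RingHom.ker (φ k a b N b) := by
      rw [he, mem_m₀]
      simp
    rw [RingHom.mem_ker] at h5
    simp [φ] at h5

theorem enat_aux {p m : ℕ∞} {a b : ℕ} (h1 : (a : ℕ∞) + 2 ≤ p) (h3 : p + b + 1 ≤ m)
    (h4 : m ≤ ((a + b + 3 : ℕ) : ℕ∞)) : p = ((a + 2 : ℕ) : ℕ∞) ∧ m = ((a + b + 3 : ℕ) : ℕ∞) := by
  have hm : m ≠ ⊤ := fun h => by rw [h] at h4; exact absurd h4 (by simp)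
  have hp : p ≠ ⊤ := fun h => by rw [h] at h3; exact hm (by simpa using h3)
  lift m to ℕ using hm
  lift p to ℕ using hp
  have h1' : a + 2 ≤ p := by exact_mod_cast h1
  have h3' : p + b + 1 ≤ m := by exact_mod_cast h3
  have h4' : m ≤ a + b + 3 := by exact_mod_cast h4
  have hp : p = a + 2 := by omega
  have hm : m = a + b + 3 := by omega
  subst hp hm
  exact ⟨rfl, rfl⟩

theorem heights {N : ℕ} (hN : 2 ≤ N) : (P₀ k a b N).height = ((a + 2 : ℕ) : ℕ∞) ∧
    (m₀ k a b).height = ((a + b + 3 : ℕ) : ℕ∞) := by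
  have h1 := κ_height (k := k) (b := b) a le_rfl
  have h2 := Ideal.height_add_one_le_of_lt_of_isPrime (κ_lt_ψ (k := k) (a := a) (b := b) N)
  have h3 := Ideal.height_add_one_le_of_lt_of_isPrime (ψ_lt_P (k := k) (a := a) (b := b) hN)
  have h4 := φ_height (k := k) (a := a) N b le_rfl
  have h5 := Ideal.height_add_one_le_of_lt_of_isPrime (φ_lt_m (k := k) (a := a) (b := b) hN)
  have h6 : (m₀ k a b).height ≤ ((a + b + 3 : ℕ) : ℕ∞) := by
    have h7 : ((m₀ k a b).height : WithBot ℕ∞) ≤ ringKrullDim (A k a b) :=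
      Ideal.height_le_ringKrullDim_of_isPrime
    rw [MvPolynomial.ringKrullDim_of_isNoetherianRing, ringKrullDim_eq_zero_of_field] at h7
    have h8 : ((m₀ k a b).height : WithBot ℕ∞) ≤ (((a + b + 3 : ℕ) : ℕ∞) : WithBot ℕ∞) := by
      refine h7.trans (le_of_eq ?_)
      rw [Nat.card_eq_fintype_card]
      simp only [Fintype.card_sum, Fintype.card_fin, zero_add]
      rw [show 3 + (a + b) = a + b + 3 by omega]
      rfl
    exact_mod_cast h8
  refine enat_aux ?_ ?_ h6
  · calc (a : ℕ∞) + 2 = (a : ℕ∞) + 1 + 1 := by rw [add_assoc]; rfl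
      _ ≤ (RingHom.ker (κ k a b a)).height + 1 + 1 := by gcongr
      _ ≤ (RingHom.ker (ψ k a b N)).height + 1 := by gcongr
      _ ≤ _ := h3
  · exact (add_le_add h4 le_rfl).trans h5

/-- Restriction to the `z`-axis. -/
noncomputable def θ : A k a b →ₐ[k] Polynomial k :=
  aeval (Sum.elim ![0, 0, Polynomial.X] (fun _ => 0))

theorem coeff_θ (f : A k a b) : (θ f).coeff 0 = constantCoeff f := by
  have h : (Polynomial.constantCoeff).comp ((θ : A k a b →ₐ[k] Polynomial k) :
      A k a b →+* Polynomial k) = constantCoeff := by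
    apply MvPolynomial.ringHom_ext
    · intro r
      simp [θ]
    · rintro (i | i)
      · fin_cases i <;> simp [θ]
      · simp [θ]
  rw [← h, RingHom.comp_apply]
  rfl

/-- the weight of a monomial in `x, y, z` -/
def wt (N : ℕ) (d : ι a b →₀ ℕ) : ℕ := ∑ i : Fin 3, cv N i * d (Sum.inl i)

theorem prod_sum_elim {M : Type} [CommMonoid M] (f : Fin 3 → M) (g : Fin a ⊕ Fin b → M)
    (d : ι a b →₀ ℕ) : d.prod (fun i n => (Sum.elim f g i) ^ n) =
      (∏ i : Fin 3, f i ^ d (Sum.inl i)) * ∏ i : Fin a ⊕ Fin b, g i ^ d (Sum.inr i) := by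
  rw [Finsupp.prod_fintype _ _ (fun i => pow_zero _), Fintype.prod_sum_type]
  rfl

/-- `x, y, z` on the monomial curve, all other variables zero -/
noncomputable def φ' (N : ℕ) : A k a b →ₐ[k] Polynomial k :=
  aeval (Sum.elim (fun i => Polynomial.X ^ cv N i) (fun _ => 0))

theorem φ'_zero {N : ℕ} {f : A k a b} (hf : f ∈ P₀ k a b N) : φ' N f = 0 := by
  have h : (aeval (fun i : Option (Fin b) => i.elim Polynomial.X (fun _ => 0)) :
      T k b →ₐ[k] Polynomial k).comp (φ k a b N 0) = φ' N := by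
    apply MvPolynomial.algHom_ext
    rintro (i | i | i)
    · simp [φ, φ']
    · simp [φ, φ']
    · simp [φ, φ']
  have hf' : φ k a b N 0 f = 0 := hf
  rw [← h, AlgHom.comp_apply, hf', map_zero]

/-- `N ^ 2 + N - 1` is not in the semigroup of `N + 1` and `N + 2` -/
theorem arith {N p q r : ℕ} (hN : 2 ≤ N) (h : (N + 1) * p + (N + 2) * q + (N ^ 2 + N - 1) * r =
    N ^ 2 + N - 1) : p = 0 ∧ q = 0 ∧ r = 1 := by
  obtain ⟨c, hc⟩ : ∃ c, N ^ 2 + N = c + 1 := ⟨N ^ 2 + N - 1, by
    have : 1 < N ^ 2 + N := by nlinarith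
    omega⟩
  have hc' : N ^ 2 + N - 1 = c := by omega
  rw [hc'] at h
  have hc1 : 1 < c := by nlinarith
  have hr : r ≤ 1 := by
    by_contra hr
    have : 2 ≤ r := by omega
    nlinarith [Nat.zero_le ((N + 1) * p), Nat.zero_le ((N + 2) * q)]
  interval_cases r
  · exfalso
    have h1 : p + q ≤ N - 1 := by
      by_contra hcon
      have : N ≤ p + q := by omega
      nlinarith [Nat.zero_le q]
    obtain ⟨M, rfl⟩ : ∃ M, N = M + 1 := ⟨N - 1, by omega⟩
    have h2 : p + q ≤ M := by omega
    nlinarith [Nat.zero_le p]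
  · have h1 : (N + 1) * p + (N + 2) * q = 0 := by omega
    refine ⟨?_, ?_, rfl⟩
    · rcases Nat.eq_zero_or_pos p with h | h
      · exact h
      · nlinarith [Nat.zero_le ((N + 2) * q)]
    · rcases Nat.eq_zero_or_pos q with h | h
      · exact h
      · nlinarith [Nat.zero_le ((N + 1) * p)]

/-- the coefficient of `z` -/
theorem lin_eq {N : ℕ} (hN : 2 ≤ N) : (Polynomial.lcoeff k (N ^ 2 + N - 1)).comp
    (φ' N : A k a b →ₐ[k] Polynomial k).toLinearMap =
    (Polynomial.lcoeff k 1).comp (θ : A k a b →ₐ[k] Polynomial k).toLinearMap := by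
  apply MvPolynomial.linearMap_ext
  intro d
  apply LinearMap.ext_ring
  simp only [LinearMap.comp_apply, AlgHom.toLinearMap_apply, Polynomial.lcoeff_apply]
  rw [φ', θ, aeval_monomial, aeval_monomial, prod_sum_elim, prod_sum_elim]
  by_cases h0 : ∃ i : Fin a ⊕ Fin b, d (Sum.inr i) ≠ 0
  · obtain ⟨i, hi⟩ := h0
    have e : ∏ i : Fin a ⊕ Fin b, (0 : Polynomial k) ^ d (Sum.inr i) = 0 :=
      Finset.prod_eq_zero (Finset.mem_univ i) (zero_pow hi)
    rw [e, mul_zero, mul_zero]
    simp
  · push Not at h0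
    have e : ∏ i : Fin a ⊕ Fin b, (0 : Polynomial k) ^ d (Sum.inr i) = 1 :=
      Finset.prod_eq_one fun i _ => by rw [h0 i, pow_zero]
    rw [e, mul_one, mul_one, map_one, one_mul, one_mul, Fin.prod_univ_three, Fin.prod_univ_three]
    have c0 : cv N 0 = N + 1 := rfl
    have c1 : cv N 1 = N + 2 := rfl
    have c2 : cv N 2 = N ^ 2 + N - 1 := rfl
    rw [c0, c1, c2, ← pow_mul, ← pow_mul, ← pow_mul, ← pow_add, ← pow_add, Polynomial.coeff_X_pow]
    by_cases h1 : N ^ 2 + N - 1 = (N + 1) * d (Sum.inl 0) + (N + 2) * d (Sum.inl 1) +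
      (N ^ 2 + N - 1) * d (Sum.inl 2)
    · obtain ⟨e0, e1, e2⟩ := arith hN h1.symm
      rw [if_pos h1, e0, e1, e2]
      simp
    · rw [if_neg h1]
      by_cases e0 : d (Sum.inl 0) = 0
      · by_cases e1 : d (Sum.inl 1) = 0
        · have e2 : d (Sum.inl 2) ≠ 1 := by
            intro e2
            apply h1
            rw [e0, e1, e2]
            simp
          rw [e0, e1]
          simp [Polynomial.coeff_X_pow, Ne.symm e2]
        · simp [zero_pow e1]
      · simp [zero_pow e0]

theorem θ_P {N : ℕ} (hN : 2 ≤ N) {f : A k a b} (hf : f ∈ P₀ k a b N) :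
    Polynomial.X ^ 2 ∣ θ f := by
  rw [Polynomial.X_pow_dvd_iff]
  intro i hi
  have h0 : (θ f).coeff 0 = 0 := by
    rw [coeff_θ]
    have h1 : P₀ k a b N ≤ m₀ k a b := by
      refine le_trans ?_ (φ_lt_m (k := k) (a := a) (b := b) hN).le
      have h2 : ∀ j ≤ b, P₀ k a b N ≤ RingHom.ker (φ k a b N j) := by
        intro j
        induction j with
        | zero => intro _; exact le_rfl
        | succ j ih => intro hj; exact (ih (by omega)).trans (φ_lt (by omega)).le
      exact h2 b le_rfl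
    exact mem_m₀.1 (h1 hf)
  have h1 : (θ f).coeff 1 = 0 := by
    have h2 := congrArg (fun l => l f) (lin_eq (k := k) (a := a) (b := b) hN)
    simp only [LinearMap.comp_apply, AlgHom.toLinearMap_apply, Polynomial.lcoeff_apply] at h2
    rw [← h2, φ'_zero hf, Polynomial.coeff_zero]
  interval_cases i
  · exact h0
  · exact h1

theorem P_le {N : ℕ} (hN : 2 ≤ N) : P₀ k a b N ≤ m₀ k a b := by
  intro f hf
  have h1 := θ_P hN hf
  rw [Polynomial.X_pow_dvd_iff] at h1
  rw [mem_m₀, ← coeff_θ]
  exact h1 0 (by norm_num)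

/-- orders along the `z`-axis -/
theorem θ_mem {N K r : ℕ} (hN : 2 ≤ N) {f : A k a b} (hf : f ∈ m₀ k a b ^ K * P₀ k a b N ^ r) :
    Polynomial.X ^ (K + 2 * r) ∣ θ f := by
  have h1 : Ideal.map (θ : A k a b →ₐ[k] Polynomial k) (m₀ k a b) ≤
      Ideal.span {Polynomial.X} := by
    rw [Ideal.map_le_iff_le_comap]
    intro g hg
    rw [mem_m₀, ← coeff_θ] at hg
    rw [Ideal.mem_comap, Ideal.mem_span_singleton]
    exact Polynomial.X_dvd_iff.2 hg
  have h2 : Ideal.map (θ : A k a b →ₐ[k] Polynomial k) (P₀ k a b N) ≤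
      Ideal.span {Polynomial.X ^ 2} := by
    rw [Ideal.map_le_iff_le_comap]
    intro g hg
    rw [Ideal.mem_comap, Ideal.mem_span_singleton]
    exact θ_P hN hg
  have h3 : θ f ∈ Ideal.map (θ : A k a b →ₐ[k] Polynomial k) (m₀ k a b) ^ K *
      Ideal.map (θ : A k a b →ₐ[k] Polynomial k) (P₀ k a b N) ^ r := by
    rw [← Ideal.map_pow, ← Ideal.map_pow, ← Ideal.map_mul]
    exact Ideal.mem_map_of_mem _ hf
  have h4 := Ideal.mul_mono (Ideal.pow_right_mono h1 K) (Ideal.pow_right_mono h2 r) h3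
  rw [Ideal.span_singleton_pow, Ideal.span_singleton_pow, Ideal.span_singleton_mul_span_singleton,
    Ideal.mem_span_singleton, ← pow_mul, ← pow_add] at h4
  exact h4

theorem max_eq : maximalIdeal (Loc k a b) = (m₀ k a b).map (algebraMap (A k a b) (Loc k a b)) :=
  (Localization.AtPrime.map_eq_maximalIdeal (I := m₀ k a b)).symm

theorem algebraMap_inj : Function.Injective (algebraMap (A k a b) (Loc k a b)) :=
  IsLocalization.injective (Loc k a b) (m₀ k a b).primeCompl_le_nonZeroDivisors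

variable (k a b) in
/-- The ideal in the local ring. -/
noncomputable def P (N : ℕ) : Ideal (Loc k a b) :=
  (P₀ k a b N).map (algebraMap (A k a b) (Loc k a b))

/-- Elements which restrict to `X ^ n` on the `z`-axis. -/
theorem not_mem {N K r n : ℕ} (hN : 2 ≤ N) {f : A k a b} (hf : θ f = Polynomial.X ^ n)
    (hn : n < K + 2 * r) : algebraMap (A k a b) (Loc k a b) f ∉
      maximalIdeal (Loc k a b) ^ K * P k a b N ^ r := by
  intro h
  rw [max_eq, P, ← Ideal.map_pow, ← Ideal.map_pow, ← Ideal.map_mul,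
    IsLocalization.mem_map_algebraMap_iff (m₀ k a b).primeCompl] at h
  obtain ⟨⟨g, s⟩, h⟩ := h
  simp only at h
  rw [← map_mul] at h
  have h1 : f * s = g := algebraMap_inj h
  have h2 := θ_mem hN g.2
  rw [← h1, map_mul, hf] at h2
  obtain ⟨j, hj⟩ : ∃ j, K + 2 * r = n + (j + 1) := ⟨K + 2 * r - n - 1, by omega⟩
  rw [hj, pow_add] at h2
  have h3 := (mul_dvd_mul_iff_left (pow_ne_zero n Polynomial.X_ne_zero)).1 h2
  have h4 : Polynomial.X ∣ θ (s : A k a b) := (dvd_pow_self _ (Nat.succ_ne_zero j)).trans h3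
  rw [Polynomial.X_dvd_iff, coeff_θ] at h4
  exact s.2 (mem_m₀.2 h4)

theorem disj {N : ℕ} (hN : 2 ≤ N) :
    Disjoint ((m₀ k a b).primeCompl : Set (A k a b)) (P₀ k a b N : Set (A k a b)) := by
  rw [Set.disjoint_left]
  intro f hf hf'
  exact hf (P_le hN hf')

theorem P_prime {N : ℕ} (hN : 2 ≤ N) : (P k a b N).IsPrime :=
  IsLocalization.isPrime_of_isPrime_disjoint (m₀ k a b).primeCompl (Loc k a b) (P₀ k a b N)
    inferInstance (disj hN)

theorem P_comap {N : ℕ} (hN : 2 ≤ N) {f : A k a b} :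
    algebraMap (A k a b) (Loc k a b) f ∈ P k a b N ↔ f ∈ P₀ k a b N := by
  have := IsLocalization.under_map_of_isPrime_disjoint (m₀ k a b).primeCompl (Loc k a b)
    (I := P₀ k a b N) inferInstance (disj hN)
  unfold P
  rw [← Ideal.mem_comap]
  exact Ideal.ext_iff.1 this f

theorem P_height {N : ℕ} (hN : 2 ≤ N) : (P k a b N).height = ((a + 2 : ℕ) : ℕ∞) := by
  unfold P
  rw [IsLocalization.height_map_of_disjoint (m₀ k a b).primeCompl (P₀ k a b N) (disj hN)]
  exact (heights hN).1

theorem dim_Loc : ringKrullDim (Loc k a b) = ((a + b + 3 : ℕ) : WithBot ℕ∞) := by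
  rw [IsLocalization.AtPrime.ringKrullDim_eq_height (m₀ k a b), (heights (N := 2) le_rfl).2]
  rfl

/-! ### The elements of the symbolic powers -/

variable (k a b) in
/-- the entries `z`, `x ^ (i - 1) y ^ (N - i)` -/
noncomputable def en (N i : ℕ) : A k a b :=
  if i = 0 then X (Sum.inl 2) else X (Sum.inl 0) ^ (i - 1) * X (Sum.inl 1) ^ (N - i)

variable (k a b) in
/-- the matrix of the multiplication by `∑ en i θ ^ i` in the basis `1, …, θ ^ N`, `θ ^ (N + 1) = x` -/
noncomputable def Mt (N : ℕ) : Matrix (Fin (N + 1)) (Fin (N + 1)) (A k a b) :=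
  Matrix.of fun l j => if (j : ℕ) ≤ l then en k a b N (l - j) else
    X (Sum.inl 0) * en k a b N (N + 1 + l - j)

theorem φ_en {N i : ℕ} (hN : 2 ≤ N) (hi : i ≤ N) :
    φ k a b N 0 (en k a b N i) = X none ^ (N ^ 2 + N - 1 - i) := by
  have hc : N ≤ N ^ 2 := by nlinarith
  unfold en
  by_cases h : i = 0
  · rw [if_pos h, h]
    simp [φ, cv]
  · rw [if_neg h, map_mul, map_pow, map_pow]
    simp only [φ, aeval_X, Sum.elim_inl]
    have c0 : cv N 0 = N + 1 := rfl
    have c1 : cv N 1 = N + 2 := rfl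
    rw [c0, c1, ← pow_mul, ← pow_mul, ← pow_add]
    congr 1
    obtain ⟨j, rfl⟩ : ∃ j, i = j + 1 := ⟨i - 1, by omega⟩
    obtain ⟨q, rfl⟩ : ∃ q, N = j + 1 + q := ⟨N - (j + 1), by omega⟩
    have e1 : j + 1 - 1 = j := by omega
    have e2 : j + 1 + q - (j + 1) = q := by omega
    rw [e1, e2]
    have e3 : (j + 1 + q) ^ 2 + (j + 1 + q) = (j + 1 + q + 1) * j + (j + 1 + q + 2) * q + (j + 2) := by
      ring
    omega

theorem φ_Mt {N : ℕ} (hN : 2 ≤ N) (l j : Fin (N + 1)) :
    φ k a b N 0 (Mt k a b N l j) * X none ^ (l : ℕ) = X none ^ (N ^ 2 + N - 1 + j) := by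
  have hl := l.2
  have hj := j.2
  have hc : N + 1 < N ^ 2 + N := by nlinarith
  simp only [Mt, Matrix.of_apply]
  by_cases h : (j : ℕ) ≤ l
  · rw [if_pos h, φ_en hN (by omega), ← pow_add]
    congr 1
    omega
  · rw [if_neg h, map_mul, φ_en hN (by omega)]
    have c0 : φ k a b N 0 (X (Sum.inl 0)) = X none ^ (N + 1) := by
      simp [φ, cv]
    rw [c0, ← pow_add, ← pow_add]
    congr 1
    omega

/-- the minors of order two vanish on the curve -/
theorem minors {N : ℕ} (hN : 2 ≤ N) (i j i' j' : Fin (N + 1)) :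
    Mt k a b N i j * Mt k a b N i' j' - Mt k a b N i' j * Mt k a b N i j' ∈ P₀ k a b N := by
  show _ ∈ RingHom.ker _
  rw [RingHom.mem_ker, map_sub, map_mul, map_mul, sub_eq_zero]
  have hX : (X none : T k b) ≠ 0 := X_ne_zero _
  have h1 : (X none : T k b) ^ (i : ℕ) * X none ^ (i' : ℕ) ≠ 0 :=
    mul_ne_zero (pow_ne_zero _ hX) (pow_ne_zero _ hX)
  apply mul_right_cancel₀ h1
  have e1 := φ_Mt (k := k) (a := a) (b := b) hN i j
  have e2 := φ_Mt (k := k) (a := a) (b := b) hN i' j'
  have e3 := φ_Mt (k := k) (a := a) (b := b) hN i' j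
  have e4 := φ_Mt (k := k) (a := a) (b := b) hN i j'
  calc φ k a b N 0 (Mt k a b N i j) * φ k a b N 0 (Mt k a b N i' j') *
        (X none ^ (i : ℕ) * X none ^ (i' : ℕ))
      = (φ k a b N 0 (Mt k a b N i j) * X none ^ (i : ℕ)) *
        (φ k a b N 0 (Mt k a b N i' j') * X none ^ (i' : ℕ)) := by ring
    _ = (φ k a b N 0 (Mt k a b N i' j) * X none ^ (i' : ℕ)) *
        (φ k a b N 0 (Mt k a b N i j') * X none ^ (i : ℕ)) := by rw [e1, e2, e3, e4]
    _ = _ := by ring

theorem Mt_zero (N : ℕ) : Mt k a b N 0 0 = X (Sum.inl 2) := by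
  simp [Mt, en]

variable (k a b) in
/-- an element of symbolic order `N` and of order `N + 1` -/
noncomputable def F (N : ℕ) : A k a b := (Mt k a b N).det

theorem F_mem {N : ℕ} (hN : 2 ≤ N) :
    X (Sum.inl 2) ^ N * F k a b N ∈ P₀ k a b N ^ N := by
  have h := chio (I := P₀ k a b N) (Mt k a b N) (fun i j => by
    have := minors (k := k) (a := a) (b := b) hN 0 0 i.succ j.succ
    exact this)
  rwa [Mt_zero] at h

theorem θ_F {N : ℕ} (hN : 2 ≤ N) : θ (F k a b N) = Polynomial.X ^ (N + 1) := by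
  have h1 : ∀ i, i ≠ 0 → i ≤ N → θ (en k a b N i) = 0 := by
    intro i hi hiN
    unfold en
    rw [if_neg hi, map_mul, map_pow, map_pow]
    simp only [θ, aeval_X, Sum.elim_inl, Matrix.cons_val_zero, Matrix.cons_val_one]
    by_cases h2 : i - 1 = 0
    · rw [zero_pow (n := N - i) (by omega), mul_zero]
    · rw [zero_pow h2, zero_mul]
  have h2 : (Mt k a b N).map (θ : A k a b →ₐ[k] Polynomial k) =
      Matrix.diagonal (fun _ => Polynomial.X) := by
    apply Matrix.ext
    intro l j
    rw [Matrix.map_apply]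
    have hl := l.2
    have hj := j.2
    simp only [Mt, Matrix.of_apply]
    by_cases h : (j : ℕ) ≤ l
    · rw [if_pos h]
      by_cases h3 : l = j
      · subst h3
        rw [Matrix.diagonal_apply_eq, Nat.sub_self]
        simp [en, θ]
      · rw [Matrix.diagonal_apply_ne _ h3]
        apply h1
        · intro h4
          apply h3
          ext
          omega
        · omega
    · rw [if_neg h, map_mul]
      have h3 : l ≠ j := by
        rintro rfl
        exact h le_rfl
      rw [Matrix.diagonal_apply_ne _ h3]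
      have : θ (X (Sum.inl 0) : A k a b) = 0 := by simp [θ]
      rw [this, zero_mul]
  unfold F
  have h3 := AlgHom.map_det (θ : A k a b →ₐ[k] Polynomial k) (Mt k a b N)
  rw [h3]
  have h4 : (θ : A k a b →ₐ[k] Polynomial k).mapMatrix (Mt k a b N) =
      (Mt k a b N).map (θ : A k a b →ₐ[k] Polynomial k) := rfl
  rw [h4, h2, Matrix.det_diagonal, Finset.prod_const, Finset.card_univ, Fintype.card_fin]

theorem z_not_mem {N : ℕ} : (X (Sum.inl 2) : A k a b) ∉ P₀ k a b N := by
  intro h
  have h1 : φ k a b N 0 (X (Sum.inl 2)) = 0 := h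
  simp [φ] at h1

theorem main {N m K r q : ℕ} (hN : 2 ≤ N) (hq : m ≤ N * q) (hK : (N + 1) * q < K + 2 * r) :
    ¬ (symbolicPower (P k a b N) m ≤ maximalIdeal (Loc k a b) ^ K * P k a b N ^ r) := by
  intro hcon
  have h4 : algebraMap (A k a b) (Loc k a b) (F k a b N ^ q) ∈ symbolicPower (P k a b N) m := by
    apply mem_symbolicPower (P_prime hN)
      (s := algebraMap (A k a b) (Loc k a b) (X (Sum.inl 2) ^ (N * q)))
    · rw [P_comap hN]
      intro h
      exact z_not_mem ((inferInstance : (P₀ k a b N).IsPrime).mem_of_pow_mem _ h)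
    · rw [← map_mul]
      have h1 : X (Sum.inl 2) ^ (N * q) * F k a b N ^ q ∈ P₀ k a b N ^ (N * q) := by
        rw [pow_mul (X (Sum.inl 2)), pow_mul (P₀ k a b N), ← mul_pow]
        exact Ideal.pow_mem_pow (F_mem hN) q
      have h2 := Ideal.pow_le_pow_right hq h1
      unfold P
      rw [← Ideal.map_pow]
      exact Ideal.mem_map_of_mem _ h2
  refine not_mem (n := (N + 1) * q) hN ?_ hK (hcon h4)
  rw [map_pow, θ_F hN, ← pow_mul]

theorem main_real {N m r K : ℕ} (hN : 2 ≤ N)
    (h : (m : ℝ) + m / N + (N + 2) ≤ K + 2 * r) :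
    ¬ (symbolicPower (P k a b N) m ≤ maximalIdeal (Loc k a b) ^ K * P k a b N ^ r) := by
  have hN' : 0 < N := by omega
  have h1 := Nat.div_add_mod m N
  have h2 := Nat.mod_lt m hN'
  apply main (q := m / N + 1) hN
  · rw [mul_add, mul_one]
    omega
  · have h3 : ((m / N : ℕ) : ℝ) ≤ (m : ℝ) / N := Nat.cast_div_le
    have h4 : (m : ℝ) + (m / N : ℕ) + (N + 2) ≤ K + 2 * r := by linarith
    have h5 : m + m / N + (N + 2) ≤ K + 2 * r := by exact_mod_cast h4
    have h6 : (N + 1) * (m / N + 1) = N * (m / N) + m / N + N + 1 := by ring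
    omega

end Ring

end Pool.Agent.Y145.SP
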